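import Pool.Agent.Lib.MP_4fbe7c_an.UL.Iface

/-!
Project UL (MP_4fbe7c_an), module OUT (helper18): the outer part.
-/

set_option autoImplicit false

open Finset

namespace Pool.Agent.Lib.MP_4fbe7c_an.UL.H18

open Pool.Agent.Lib.MP_4fbe7c_an.UL

theorem smono {n : ℕ} {r S Z ZZ : ℕ → ℝ} (h : Sta n r S Z ZZ) {i j : ℕ} (hij : i ≤ j)
    (hj : j ≤ n) : S i ≤ S j := by
  induction j, hij using Nat.le_induction with
  | base => exact le_rfl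
  | succ k hk ih => exact (ih (by omega)).trans (h.mono k (by omega))

theorem spos {n : ℕ} {r S Z ZZ : ℕ → ℝ} (h : Sta n r S Z ZZ) {j : ℕ} (hj : j ≤ n) : 0 < S j :=
  h.S0.trans_le (smono h (Nat.zero_le j) hj)

theorem sle1 {n : ℕ} {r S Z ZZ : ℕ → ℝ} (h : Sta n r S Z ZZ) {j : ℕ} (hj : j ≤ n) : S j ≤ 1 := by
  rw [← h.Sn]; exact smono h hj le_rfl

theorem tele (f : ℕ → ℝ) {c n : ℕ} (h : c ≤ n) : ∑ j ∈ Ico c n, (f j - f (j + 1)) = f c - f n := by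
  induction n, h using Nat.le_induction with
  | base => simp
  | succ k hk ih => rw [sum_Ico_succ_top hk, ih]; ring

theorem dy_nonneg {n : ℕ} {r S Z ZZ : ℕ → ℝ} (h : Sta n r S Z ZZ) {j : ℕ} (hj : j < n) :
    0 ≤ dy S j := by
  have h0 := spos h hj.le
  have h1 := h.mono j hj
  unfold dy
  have h2 : S j ^ 2 ≤ S (j + 1) ^ 2 := by nlinarith
  have h3 : 0 < S j ^ 2 := by positivity
  have := one_div_le_one_div_of_le h3 h2
  linarith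

theorem sum_dy {n c : ℕ} {r S Z ZZ : ℕ → ℝ} (h : Sta n r S Z ZZ) (hc : c ≤ n) :
    S c ^ 2 * ∑ j ∈ Ico c n, dy S j ≤ 2 * (1 - S c) := by
  have h1 : ∑ j ∈ Ico c n, dy S j = 1 / S c ^ 2 - 1 / S n ^ 2 := tele (fun j => 1 / S j ^ 2) hc
  have h0 := spos h hc
  rw [h1, h.Sn]
  have h2 : S c ^ 2 * (1 / S c ^ 2 - 1 / 1 ^ 2) = 1 - S c ^ 2 := by
    field_simp
  rw [h2]
  nlinarith [sq_nonneg (1 - S c)]

theorem lev_ge {n c : ℕ} {lam : ℝ} {r η S Z ZZ : ℕ → ℝ} {ζ : ℝ} (hp : Par n c lam r η)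
    (h : Sta n r S Z ZZ) {j : ℕ} (hcj : c ≤ j) (hj : j < n) :
    2 * (dy S j * al r Z ZZ j ^ 2) - 4 * ζ * (η (j + 1) * dx S j * al r Z ZZ j) ≤
      lev r η S Z ZZ ζ j := by
  have hr1 : r (j + 1) ≤ 1 / 3 := hp.rts.rc' (j + 1) (by omega) (by omega)
  have hr0 : 0 < r (j + 1) := hp.rts.rpos (j + 1) (by omega)
  have hη := (hp.etab (j + 1) (by omega) (by omega)).1
  have hd := dy_nonneg h hj
  have h1 : 0 < 1 - r (j + 1) ^ 2 := by nlinarith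
  have h2 : 1 - r (j + 1) ^ 2 ≤ 1 := by nlinarith [sq_nonneg (r (j + 1))]
  have h3 : 2 * dy S j ≤ 2 * (1 + η (j + 1)) * dy S j / (1 - r (j + 1) ^ 2) := by
    rw [le_div_iff₀ h1]
    nlinarith [mul_nonneg hd hη, mul_nonneg hd (sub_nonneg.mpr h2)]
  have h4 := mul_le_mul_of_nonneg_right h3 (sq_nonneg (al r Z ZZ j))
  unfold lev
  nlinarith [h4]

theorem nm {n c : ℕ} {lam : ℝ} {r η S Z ZZ : ℕ → ℝ} (hp : Par n c lam r η)
    (h : Sta n r S Z ZZ) (hc : c < n) :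
    0 ≤ ∑ j ∈ Ico c n, nu r (j + 1) * (1 - S c / S (j + 1)) ∧
      ∑ j ∈ Ico c n, nu r (j + 1) * (1 - S c / S (j + 1)) ≤ (1 - S c) / 3 := by
  have hn : ∀ j ∈ Ico c n, 0 ≤ nu r (j + 1) := by
    intro j hj
    rw [mem_Ico] at hj
    have := hp.rts.ranti (j + 1) (by omega)
    unfold nu; linarith
  have hq : ∀ j ∈ Ico c n, 0 ≤ 1 - S c / S (j + 1) ∧ 1 - S c / S (j + 1) ≤ 1 - S c := by
    intro j hj
    rw [mem_Ico] at hj
    have h0 := spos h hc.le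
    have h1 := spos h (j := j + 1) (by omega)
    have h2 := smono h (i := c) (j := j + 1) (by omega) (by omega)
    have h3 := sle1 h (j := j + 1) (by omega)
    have h4 : S c / S (j + 1) ≤ 1 := (div_le_one h1).mpr h2
    have h5 : S c ≤ S c / S (j + 1) := by
      rw [le_div_iff₀ h1]; nlinarith
    exact ⟨by linarith, by linarith⟩
  constructor
  · exact sum_nonneg fun j hj => mul_nonneg (hn j hj) (hq j hj).1
  · have h1 : ∑ j ∈ Ico c n, nu r (j + 1) * (1 - S c / S (j + 1)) ≤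
        ∑ j ∈ Ico c n, nu r (j + 1) * (1 - S c) :=
      sum_le_sum fun j hj => mul_le_mul_of_nonneg_left (hq j hj).2 (hn j hj)
    have h2 : ∑ j ∈ Ico c n, nu r (j + 1) = r (c + 1) - r (n + 1) :=
      tele (fun j => r (j + 1)) hc.le
    rw [← sum_mul, h2, hp.rts.rlast] at h1
    have h3 : r (c + 1) ≤ 1 / 3 := hp.rts.rc' (c + 1) (by omega) (by omega)
    have h4 := sle1 h (j := c) hc.le
    nlinarith

theorem ab (s a b p q : ℝ) (hp : p * q = 1 / 4) (hp0 : 0 < p) (h : s = a * b) :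
    |s| ≤ p * a ^ 2 + q * b ^ 2 := by
  subst h
  have h0 : 0 ≤ p * a ^ 2 + q * b ^ 2 - a * b ∧ 0 ≤ p * a ^ 2 + q * b ^ 2 + a * b := by
    have hq : q = 1 / (4 * p) := by field_simp; linarith
    subst hq
    constructor
    · have : p * a ^ 2 + 1 / (4 * p) * b ^ 2 - a * b = p * (a - b / (2 * p)) ^ 2 := by
        field_simp; ring
      rw [this]; positivity
    · have : p * a ^ 2 + 1 / (4 * p) * b ^ 2 + a * b = p * (a + b / (2 * p)) ^ 2 := by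
        field_simp; ring
      rw [this]; positivity
  exact abs_le.mpr ⟨by linarith [h0.2], by linarith [h0.1]⟩

theorem fourth (lam τ ζ u X Y Nm : ℝ) (hlam1 : 1 / 1000 ≤ lam) (hlam2 : lam ≤ 1 / 500)
    (hτ0 : 0 ≤ τ) (hτ1 : τ ≤ 1) (hN0 : 0 ≤ Nm) (hN1 : Nm ≤ τ / 3) :
    τ * ((8 / 3 - 16 / 10) * lam) * ζ ^ 2 - 8 / 100 * u ^ 2 - 8 / 4500 * X ^ 2 -
      4 / 4500 * Y ^ 2 ≤ 4 * lam * ζ * (τ * (ζ + u) - (ζ + X + Y) * Nm) := by
  have hl : 0 ≤ lam * τ := mul_nonneg (by linarith) hτ0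
  have hl2 : lam * τ ≤ 1 / 500 := by nlinarith
  have h5 : (ζ + X + Y) * ζ * Nm ≤ (ζ ^ 2 + |ζ * X| + |ζ * Y|) * (τ / 3) := by
    have h6 : (ζ + X + Y) * ζ * Nm ≤ (ζ ^ 2 + |ζ * X| + |ζ * Y|) * Nm := by
      apply mul_le_mul_of_nonneg_right _ hN0
      linarith [le_abs_self (ζ * X), le_abs_self (ζ * Y)]
    exact h6.trans (mul_le_mul_of_nonneg_left hN1 (by positivity))
  have h7 : -|ζ * u| ≤ ζ * u := neg_abs_le _
  have h8 : |ζ * u| ≤ 1 / 40 * ζ ^ 2 + 10 * u ^ 2 := ab _ ζ u _ _ (by norm_num) (by norm_num) rfl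
  have h9 : |ζ * X| ≤ 3 / 8 * ζ ^ 2 + 2 / 3 * X ^ 2 := ab _ ζ X _ _ (by norm_num) (by norm_num) rfl
  have h10 : |ζ * Y| ≤ 3 / 4 * ζ ^ 2 + 1 / 3 * Y ^ 2 := ab _ ζ Y _ _ (by norm_num) (by norm_num) rfl
  have h12 : 4 * lam * ((ζ + X + Y) * ζ * Nm) ≤
      4 * lam * ((ζ ^ 2 + |ζ * X| + |ζ * Y|) * (τ / 3)) :=
    mul_le_mul_of_nonneg_left h5 (by linarith)
  have h13 : 0 ≤ (lam * τ) * (4 * (1 / 40 * ζ ^ 2 + 10 * u ^ 2 - |ζ * u|) +
      4 / 3 * (3 / 8 * ζ ^ 2 + 2 / 3 * X ^ 2 - |ζ * X|) +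
      4 / 3 * (3 / 4 * ζ ^ 2 + 1 / 3 * Y ^ 2 - |ζ * Y|)) :=
    mul_nonneg hl (by linarith)
  have h14 : 0 ≤ (lam * τ) * (ζ * u + |ζ * u|) := mul_nonneg hl (by linarith)
  have h15 : 0 ≤ (1 / 500 - lam * τ) * (40 * u ^ 2 + 8 / 9 * X ^ 2 + 4 / 9 * Y ^ 2) :=
    mul_nonneg (by linarith) (by positivity)
  linarith [h12, h13, h14, h15]

/-- OUT. -/
theorem out (hT : TpsStatement) (hP : P4bStatement) (hH : HsbStatement) : OutStatement := by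
  intro n c lam Ā r η S Z ZZ ζ hp h hc hζ hA0 hA1
  have htps := hT n c r S Z ZZ hc.le hp.rts.rlast h
  have hp4b := (abs_le.mp (hP n c lam r η S Z ZZ ζ hp h hc)).2
  have hhsb := hH n c lam Ā r η S Z ZZ ζ hp h hc hA0 hA1
  have hlam1 := hp.lam1
  have hlam2 := hp.lam2
  have hS0 := spos h hc.le
  have hS1 := sle1 h hc.le
  obtain ⟨hN0, hN1⟩ := nm hp h hc
  -- the levels
  have hlev : 2 * Lq n c r S Z ZZ - 4 * ζ * ∑ j ∈ Ico c n, η (j + 1) * dx S j * al r Z ZZ j ≤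
      ∑ j ∈ Ico c n, lev r η S Z ZZ ζ j := by
    unfold Lq
    rw [mul_sum, mul_sum, ← sum_sub_distrib]
    refine sum_le_sum fun j hj => ?_
    rw [mem_Ico] at hj
    exact lev_ge hp h hj.1 hj.2
  -- P4B
  have hsplit : ∑ j ∈ Ico c n, (η (j + 1) - lam) * dx S j * al r Z ZZ j =
      (∑ j ∈ Ico c n, η (j + 1) * dx S j * al r Z ZZ j) -
        lam * ∑ j ∈ Ico c n, dx S j * al r Z ZZ j := by
    rw [mul_sum, ← sum_sub_distrib]
    exact sum_congr rfl fun j _ => by ring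
  have hsplit2 : ∑ l ∈ Ico c n, (dx S l - S c * dy S l) * al r Z ZZ l =
      (∑ j ∈ Ico c n, dx S j * al r Z ZZ j) - S c * ∑ j ∈ Ico c n, dy S j * al r Z ZZ j := by
    rw [mul_sum, ← sum_sub_distrib]
    exact sum_congr rfl fun j _ => by ring
  -- the third term
  have h3 : 4 * lam * ζ * S c * ∑ j ∈ Ico c n, dy S j * al r Z ZZ j ≤
      1 / 2 * Lq n c r S Z ZZ + 8 * lam ^ 2 * ζ ^ 2 * (S c ^ 2 * ∑ j ∈ Ico c n, dy S j) := by
    unfold Lq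
    rw [← mul_assoc (8 * lam ^ 2 * ζ ^ 2), mul_sum, mul_sum, mul_sum, ← sum_add_distrib]
    refine sum_le_sum fun j hj => ?_
    rw [mem_Ico] at hj
    have hd := dy_nonneg h hj.2
    nlinarith [mul_nonneg hd (sq_nonneg (al r Z ZZ j - 4 * lam * ζ * S c))]
  have h3' := sum_dy h hc.le
  have h3'' : 8 * lam ^ 2 * ζ ^ 2 * (S c ^ 2 * ∑ j ∈ Ico c n, dy S j) ≤
      8 * lam ^ 2 * ζ ^ 2 * (2 * (1 - S c)) :=
    mul_le_mul_of_nonneg_left h3' (by positivity)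
  rw [hsplit2] at htps
  rw [hsplit] at hp4b
  have hLq : 0 ≤ Lq n c r S Z ZZ := by
    unfold Lq
    refine sum_nonneg fun j hj => ?_
    rw [mem_Ico] at hj
    exact mul_nonneg (dy_nonneg h hj.2) (sq_nonneg _)
  -- names
  set A1 := ∑ j ∈ Ico c n, η (j + 1) * dx S j * al r Z ZZ j
  set A2 := ∑ j ∈ Ico c n, dx S j * al r Z ZZ j
  set A3 := ∑ j ∈ Ico c n, dy S j * al r Z ZZ j
  set Nm := ∑ j ∈ Ico c n, nu r (j + 1) * (1 - S c / S (j + 1))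
  set L := Lq n c r S Z ZZ
  set B := Bq n c r S Z ζ
  set G := Gq n c r S Z ZZ
  set Lev := ∑ j ∈ Ico c n, lev r η S Z ZZ ζ j
  set HH := Hf n c r S Z ZZ
  rw [htps]
  obtain ⟨τ, hτ⟩ : ∃ τ, τ = 1 - S c := ⟨_, rfl⟩
  obtain ⟨u, hu⟩ : ∃ u, u = Z n - ζ := ⟨_, rfl⟩
  obtain ⟨X, hX⟩ : ∃ X, X = bs S Z c - ζ := ⟨_, rfl⟩
  obtain ⟨Y, hY⟩ : ∃ Y, Y = bs S ZZ c - bs S Z c := ⟨_, rfl⟩
  have hZ : Z n = ζ + u := by rw [hu]; ring
  have hE : bs S ZZ c = ζ + X + Y := by rw [hX, hY]; ring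
  rw [← hτ] at hp4b hhsb h3'' hN1 ⊢
  rw [← hu] at hhsb ⊢
  rw [← hX, ← hY] at hp4b hhsb ⊢
  rw [hZ, hE]
  have hτ0 : 0 ≤ τ := by rw [hτ]; linarith
  have hτ1 : τ ≤ 1 := by rw [hτ]; linarith
  -- the fourth term
  have h4 := fourth lam τ ζ u X Y Nm hlam1 hlam2 hτ0 hτ1 hN0 hN1
  -- the terms with `ζ ^ 2`
  have h5 : 0 ≤ τ * ζ ^ 2 * ((8 / 3 - 16 / 10) * lam - 16 * lam ^ 2 - 9 / 10000) := by
    apply mul_nonneg (by positivity)
    nlinarith [mul_nonneg (sub_nonneg.mpr hlam1) (sub_nonneg.mpr hlam2)]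
  have hX2 := sq_nonneg X
  have hY2 := sq_nonneg Y
  have hu2 := sq_nonneg u
  linarith [hlev, hp4b, hhsb, h3, h3'', h4, h5, hLq, hX2, hY2, hu2]

end Pool.Agent.Lib.MP_4fbe7c_an.UL.H18
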